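import Pool.Agent.Work.MP_2f0ece_A.B_ASM
import Pool.Agent.Work.MP_2f0ece_A.B_CUB
import Pool.Agent.Work.MP_2f0ece_A.B_DEG
import Pool.Agent.Work.MP_2f0ece_A.B_GAM
import Pool.Agent.Work.MP_2f0ece_A.B_IND
import Pool.Agent.Work.MP_2f0ece_A.B_IRR
import Pool.Agent.Work.MP_2f0ece_A.B_NZV
import Pool.Agent.Work.MP_2f0ece_A.B_PAR
import Pool.Agent.Work.MP_2f0ece_A.B_QUA
import Pool.Agent.Work.MP_2f0ece_A.B_SIN
import Pool.Agent.Work.MP_2f0ece_A.B_SMO
import Pool.Agent.Work.MP_2f0ece_A.B_SOL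

/-!
A three-parameter family of cubic threefolds, in every characteristic different from three, with
dominant rational maps from projective space of degree exactly three.
-/

set_option autoImplicit false

namespace Pool.Agent.Results.MP_2f0ece_ag.AlmostDiagonal

open MvPolynomial Pool.Agent.Work.CubicOdd

universe u

/-- Let `K` be an algebraically closed field with `3 ≠ 0` and `b, c, d` in `K`. The cubic threefold
`x_0^3 + x_1^3 + x_2^3 + x_3^3 + x_4^3 = x_0 x_1 (b x_2 + c x_3 + d x_4)` is smooth if and only if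
the displayed polynomial in `b, c, d` is not zero; and, in every linear coordinate system, it has a
dominant rational map from `P^3` of degree exactly `3`. -/
theorem result (K : Type u) [Field K] [IsAlgClosed K] (h3 : (3 : K) ≠ 0) (b c d : K)
    (F : MvPolynomial (Fin 5) K)
    (hF : F = X 0 ^ 3 + X 1 ^ 3 + X 2 ^ 3 + X 3 ^ 3 + X 4 ^ 3 -
      X 0 * X 1 * (C b * X 2 + C c * X 3 + C d * X 4)) :
    ((∀ x : Fin 5 → K, x ≠ 0 → ¬ (eval x F = 0 ∧ ∀ i : Fin 5, eval x (pderiv i F) = 0)) ↔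
      (27 ^ 2 + b ^ 6 + c ^ 6 + d ^ 6 - 54 * (b ^ 3 + c ^ 3 + d ^ 3)
        - 2 * (b ^ 3 * c ^ 3 + b ^ 3 * d ^ 3 + c ^ 3 * d ^ 3)) ^ 2
        - 1728 * (b * c * d) ^ 3 ≠ 0) ∧
    ∀ A : Matrix (Fin 5) (Fin 5) K, IsUnit A.det →
      ∃ g : Fin 4 → FractionRing (MvPolynomial (Fin 3) K),
        RingHom.ker (MvPolynomial.aeval (R := K) g) =
          Ideal.span {MvPolynomial.aeval
            (Fin.cons (1 : MvPolynomial (Fin 4) K) MvPolynomial.X :
              Fin 5 → MvPolynomial (Fin 4) K)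
            (MvPolynomial.aeval (fun i => ∑ j, C (A i j) * X j :
              Fin 5 → MvPolynomial (Fin 5) K) F)} ∧
        Module.finrank (IntermediateField.adjoin K (Set.range g))
          (FractionRing (MvPolynomial (Fin 3) K)) = 3 := by
  subst hF
  refine ⟨⟨fun h hP => ?_, fun hP x hx => DA.p_SMO K h3 b c d hP x hx⟩, fun A hA => ?_⟩
  · obtain ⟨x, hx, h1, h2⟩ := DA.p_SIN K h3 b c d hP
    exact h x hx ⟨h1, h2⟩
  · obtain ⟨w, hw⟩ : ∃ w : K, w ^ 2 + w + 1 = 0 := by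
      have hdeg : (Polynomial.X ^ 2 + Polynomial.X + 1 : Polynomial K).degree = 2 := by
        compute_degree!
      obtain ⟨w, hw⟩ := IsAlgClosed.exists_root
        (Polynomial.X ^ 2 + Polynomial.X + 1 : Polynomial K) (by rw [hdeg]; norm_num)
      refine ⟨w, ?_⟩
      simpa [Polynomial.IsRoot] using hw
    exact DA.p_ASM (DA.p_DEG DA.p_QUA DA.p_CUB DA.p_IND) (DA.p_PAR DA.p_SOL DA.p_NZV) DA.p_IRR
      K h3 w hw b c d A hA

end Pool.Agent.Results.MP_2f0ece_ag.AlmostDiagonal
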