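import Pool.Agent.Work.MP_2f0ece_helper84.Final

/-!
A family of cubic threefolds in characteristic three with a dominant rational map from projective
space of degree three.
-/

set_option autoImplicit false

namespace Pool.Agent.Results.MP_2f0ece_ag.CharThreeFamily

open MvPolynomial Pool.Agent.Work.CubicOdd

universe u

/-- The cubic form `z^3 + q z + y t^2 + a y^2 + (q - a^2) y + l t + k` in the variables
`z, u, v, y, t = X 0, X 1, X 2, X 3, X 4`, where `a, q, l, k` are the binary forms in `u, v` of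
degrees `1, 2, 2, 3` with the given coefficients. -/
noncomputable def famForm {K : Type u} [Field K] (a : Fin 2 → K) (q l : Fin 3 → K)
    (k : Fin 4 → K) : MvPolynomial (Fin 5) K :=
  X 0 ^ 3 + (C (q 0) * X 1 ^ 2 + C (q 1) * X 1 * X 2 + C (q 2) * X 2 ^ 2) * X 0 +
    X 3 * X 4 ^ 2 + (C (a 0) * X 1 + C (a 1) * X 2) * X 3 ^ 2 +
    ((C (q 0) * X 1 ^ 2 + C (q 1) * X 1 * X 2 + C (q 2) * X 2 ^ 2) -
      (C (a 0) * X 1 + C (a 1) * X 2) ^ 2) * X 3 +
    (C (l 0) * X 1 ^ 2 + C (l 1) * X 1 * X 2 + C (l 2) * X 2 ^ 2) * X 4 +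
    (C (k 0) * X 1 ^ 3 + C (k 1) * X 1 ^ 2 * X 2 + C (k 2) * X 1 * X 2 ^ 2 + C (k 3) * X 2 ^ 3)

/-- In characteristic three every member of the family, in every system of linear coordinates,
has a dominant rational map from `P^3` of degree three; and the family has smooth members. -/
theorem result (K : Type u) [Field K] [CharP K 3] :
    (∀ (a : Fin 2 → K) (q l : Fin 3 → K) (k : Fin 4 → K) (A : Matrix (Fin 5) (Fin 5) K),
      a ≠ 0 → IsUnit A.det → ∀ F : MvPolynomial (Fin 5) K,
      F = aeval (fun i => ∑ j, C (A i j) * X j) (famForm a q l k) →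
      ∃ g : Fin 4 → FractionRing (MvPolynomial (Fin 3) K),
        RingHom.ker (MvPolynomial.aeval (R := K) g) =
          Ideal.span {MvPolynomial.aeval
            (Fin.cons (1 : MvPolynomial (Fin 4) K) MvPolynomial.X :
              Fin 5 → MvPolynomial (Fin 4) K) F} ∧
        Module.finrank (IntermediateField.adjoin K (Set.range g))
          (FractionRing (MvPolynomial (Fin 3) K)) = 3) ∧
    (∃ (a : Fin 2 → K) (q l : Fin 3 → K) (k : Fin 4 → K), a ≠ 0 ∧
      ∀ x : Fin 5 → K, x ≠ 0 →
        ¬ (eval x (famForm a q l k) = 0 ∧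
          ∀ i : Fin 5, eval x (pderiv i (famForm a q l k)) = 0)) := by
  have e : ∀ (a : Fin 2 → K) (q l : Fin 3 → K) (k : Fin 4 → K), famForm a q l k = fam a q l k :=
    fun _ _ _ _ => rfl
  constructor
  · intro a q l k A ha hA F hF
    rw [hF, e]
    exact three_final K a ha q l k A hA
  · refine ⟨![1, 1], ![0, 1, 0], 0, ![1, 0, 0, 1], ?_, ?_⟩
    · intro h
      have := congrFun h 0
      simp at this
    · intro x hx
      rw [e]
      exact fam_example x hx

end Pool.Agent.Results.MP_2f0ece_ag.CharThreeFamily
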