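import Pool.Agent.Work.MP_2f0ece_A.B_EXC
import Pool.Agent.Work.MP_2f0ece_A.B_FIC
import Pool.Agent.Work.MP_2f0ece_A.B_TRN
import Pool.Agent.Work.MP_2f0ece_A.B_PTS
import Pool.Agent.Work.MP_2f0ece_A.B_PRM
import Pool.Agent.Work.MP_2f0ece_A.B_IRC

/-!
Cubic threefolds with three collinear Eckardt points in characteristic three: dominant rational
maps from projective space of degree exactly three.
-/

set_option autoImplicit false

namespace Pool.Agent.Results.MP_2f0ece_ag.ThreeEckardt

open MvPolynomial Pool.Agent.Work.CubicOdd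

universe u

/-- the cubic form `x_0 x_1 (a(x_2,x_3,x_4) - x_0 - x_1) - g(x_2,x_3,x_4)` -/
noncomputable def form {K : Type u} [Field K] (a : Fin 3 → K) (g : MvPolynomial (Fin 3) K) :
    MvPolynomial (Fin 5) K :=
  X 0 * X 1 * (C (a 0) * X 2 + C (a 1) * X 3 + C (a 2) * X 4 - X 0 - X 1) -
    MvPolynomial.aeval ![(X 2 : MvPolynomial (Fin 5) K), X 3, X 4] g

/-- Let `K` be an algebraically closed field of characteristic `3`, `a` a nonzero linear form and
`g` a ternary cubic form defining a smooth plane cubic. Then the cubic threefold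
`x_0 x_1 (a(x_2,x_3,x_4) - x_0 - x_1) = g(x_2,x_3,x_4)` has, in every linear coordinate system, a
dominant rational map from `P^3` of degree exactly `3`. Some of these threefolds are smooth. -/
theorem result (K : Type u) [Field K] [IsAlgClosed K] [CharP K 3] :
    (∀ (a : Fin 3 → K) (g : MvPolynomial (Fin 3) K), a ≠ 0 → g.IsHomogeneous 3 →
      (∀ x : Fin 3 → K, x ≠ 0 →
        ¬ (eval x g = 0 ∧ ∀ i : Fin 3, eval x (pderiv i g) = 0)) →
      ∀ A : Matrix (Fin 5) (Fin 5) K, IsUnit A.det →
        ∃ G : Fin 4 → FractionRing (MvPolynomial (Fin 3) K),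
          RingHom.ker (MvPolynomial.aeval (R := K) G) =
            Ideal.span {MvPolynomial.aeval
              (Fin.cons (1 : MvPolynomial (Fin 4) K) MvPolynomial.X :
                Fin 5 → MvPolynomial (Fin 4) K)
              (MvPolynomial.aeval (fun i => ∑ j, C (A i j) * X j :
                Fin 5 → MvPolynomial (Fin 5) K) (form a g))} ∧
          Module.finrank (IntermediateField.adjoin K (Set.range G))
            (FractionRing (MvPolynomial (Fin 3) K)) = 3) ∧
    ∃ (a : Fin 3 → K) (g : MvPolynomial (Fin 3) K), a ≠ 0 ∧ g.IsHomogeneous 3 ∧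
      (∀ x : Fin 3 → K, x ≠ 0 →
        ¬ (eval x g = 0 ∧ ∀ i : Fin 3, eval x (pderiv i g) = 0)) ∧
      ∀ x : Fin 5 → K, x ≠ 0 →
        ¬ (eval x (form a g) = 0 ∧ ∀ i : Fin 5, eval x (pderiv i (form a g)) = 0) :=
  ⟨fun a g ha hg hs A hA =>
    DC.p_FIC DC.p_TRN DC.p_PTS DC.p_PRM DC.p_IRC K a ha g hg hs A hA, DC.p_EXC K⟩

end Pool.Agent.Results.MP_2f0ece_ag.ThreeEckardt
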