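import Pool.Agent.Work.MP_2f0ece_A.Iso2
import Pool.Agent.Work.MP_2f0ece_A.B_ASM
import Pool.Agent.Work.MP_2f0ece_A.B_CUB
import Pool.Agent.Work.MP_2f0ece_A.B_DEG
import Pool.Agent.Work.MP_2f0ece_A.B_GAM
import Pool.Agent.Work.MP_2f0ece_A.B_IND
import Pool.Agent.Work.MP_2f0ece_A.B_IRR
import Pool.Agent.Work.MP_2f0ece_A.B_NZV
import Pool.Agent.Work.MP_2f0ece_A.B_PAR
import Pool.Agent.Work.MP_2f0ece_A.B_QUA
import Pool.Agent.Work.MP_2f0ece_A.B_SIN
import Pool.Agent.Work.MP_2f0ece_A.B_SMO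
import Pool.Agent.Work.MP_2f0ece_A.B_SOL

/-!
Cubic threefolds with three collinear Eckardt points, characteristic different from three: a
three-isogeny multiplies the degree of a parametrization by three; a three-parameter family with
dominant rational maps from projective space of degree exactly nine.
-/

set_option autoImplicit false

namespace Pool.Agent.Results.MP_2f0ece_ag.ThreeIsogeny

open MvPolynomial Pool.Agent.Work.CubicOdd

universe u

/-- the cubic form `x_0^3 + x_1^3 + G(x_2,x_3,x_4) - x_0 x_1 a(x_2,x_3,x_4)` -/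
noncomputable def form {K : Type u} [Field K] (a : Fin 3 → K) (G : MvPolynomial (Fin 3) K) :
    MvPolynomial (Fin 5) K :=
  X 0 ^ 3 + X 1 ^ 3 + MvPolynomial.aeval ![(X 2 : MvPolynomial (Fin 5) K), X 3, X 4] G -
    X 0 * X 1 * (C (a 0) * X 2 + C (a 1) * X 3 + C (a 2) * X 4)

/-- the ternary form `a^3 / 27 - G` -/
noncomputable def dual {K : Type u} [Field K] (a : Fin 3 → K) (G : MvPolynomial (Fin 3) K) :
    MvPolynomial (Fin 3) K :=
  C (1 / 27) * (C (a 0) * X 0 + C (a 1) * X 1 + C (a 2) * X 2) ^ 3 - G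

/-- the form and its partial derivatives have no common nonzero zero -/
def Smooth {K : Type u} [Field K] (F : MvPolynomial (Fin 5) K) : Prop :=
  ∀ x : Fin 5 → K, x ≠ 0 → ¬ (eval x F = 0 ∧ ∀ i : Fin 5, eval x (pderiv i F) = 0)

/-- in every linear coordinate system `F = 0` has a dominant rational map from `P^3` of degree
exactly `n` -/
def DegreeExactly {K : Type u} [Field K] (F : MvPolynomial (Fin 5) K) (n : ℕ) : Prop :=
  ∀ A : Matrix (Fin 5) (Fin 5) K, IsUnit A.det →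
    ∃ g : Fin 4 → FractionRing (MvPolynomial (Fin 3) K),
      RingHom.ker (MvPolynomial.aeval (R := K) g) =
        Ideal.span {MvPolynomial.aeval
          (Fin.cons (1 : MvPolynomial (Fin 4) K) MvPolynomial.X :
            Fin 5 → MvPolynomial (Fin 4) K)
          (MvPolynomial.aeval (fun i => ∑ j, C (A i j) * X j :
            Fin 5 → MvPolynomial (Fin 5) K) F)} ∧
      Module.finrank (IntermediateField.adjoin K (Set.range g))
        (FractionRing (MvPolynomial (Fin 3) K)) = n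

/-- Let `K` be an algebraically closed field with `3 ≠ 0`, `a` a linear form, `G` a cubic form in
three variables and `X(a, G)` the cubic threefold `x_0^3 + x_1^3 + G = a x_0 x_1`. Then `X(a, G)` is
smooth if and only if `X(a, a^3/27 - G)` is, and a parametrization of degree `n` of the first (in all
coordinates) gives one of degree `3 n` of the second. Hence for `G = x_2^3 + x_3^3 + x_4^3` the
threefold `X(a, a^3/27 - G)` has one of degree exactly `9`; it is smooth if and only if the displayed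
polynomial in the coefficients of `a` is not zero. -/
theorem result (K : Type u) [Field K] [IsAlgClosed K] (h3 : (3 : K) ≠ 0) (a : Fin 3 → K) :
    (∀ G : MvPolynomial (Fin 3) K, G.IsHomogeneous 3 →
      (Smooth (form a G) ↔ Smooth (form a (dual a G))) ∧
      ∀ n : ℕ, 0 < n → G ≠ 0 →
        DegreeExactly (form a G) n → DegreeExactly (form a (dual a G)) (3 * n)) ∧
    DegreeExactly (form a (dual a (X 0 ^ 3 + X 1 ^ 3 + X 2 ^ 3))) 9 ∧
    (Smooth (form a (dual a (X 0 ^ 3 + X 1 ^ 3 + X 2 ^ 3))) ↔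
      (27 ^ 2 + a 0 ^ 6 + a 1 ^ 6 + a 2 ^ 6 - 54 * (a 0 ^ 3 + a 1 ^ 3 + a 2 ^ 3)
        - 2 * (a 0 ^ 3 * a 1 ^ 3 + a 0 ^ 3 * a 2 ^ 3 + a 1 ^ 3 * a 2 ^ 3)) ^ 2
        - 1728 * (a 0 * a 1 * a 2) ^ 3 ≠ 0) := by
  obtain ⟨w, hw⟩ : ∃ w : K, w ^ 2 + w + 1 = 0 := by
    have hdeg : (Polynomial.X ^ 2 + Polynomial.X + 1 : Polynomial K).degree = 2 := by
      compute_degree!
    obtain ⟨w, hw⟩ := IsAlgClosed.exists_root
      (Polynomial.X ^ 2 + Polynomial.X + 1 : Polynomial K) (by rw [hdeg]; norm_num)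
    refine ⟨w, ?_⟩
    simpa [Polynomial.IsRoot] using hw
  have hsm : ∀ G : MvPolynomial (Fin 3) K, Smooth (form a (dual a G)) → Smooth (form a G) := by
    intro G h x hx h1
    obtain ⟨y, hy, h2⟩ := DI.sing_dual h3 a G ⟨x, hx, h1⟩
    exact h y hy h2
  have hdd : ∀ G : MvPolynomial (Fin 3) K, dual a (dual a G) = G := fun G => DI.dual_dual a G
  have hsm2 : ∀ G : MvPolynomial (Fin 3) K, Smooth (form a G) ↔ Smooth (form a (dual a G)) := by
    intro G
    refine ⟨fun h => ?_, hsm G⟩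
    apply hsm
    rw [hdd]
    exact h
  have hiso : ∀ G : MvPolynomial (Fin 3) K, G.IsHomogeneous 3 → ∀ n : ℕ, 0 < n → G ≠ 0 →
      DegreeExactly (form a G) n → DegreeExactly (form a (dual a G)) (3 * n) := by
    intro G hG n hn hG0 h
    exact DI.all_dual w hw h3 a G hG hG0 n hn.ne' h
  have hcub : form a (X 0 ^ 3 + X 1 ^ 3 + X 2 ^ 3 : MvPolynomial (Fin 3) K) =
      DA.cub (a 0) (a 1) (a 2) := by
    have e : a = ![a 0, a 1, a 2] := by
      funext i
      fin_cases i <;> rfl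
    have := DI.F1_fermat (K := K) (a 0) (a 1) (a 2)
    rw [← e] at this
    exact this
  have hF : (X 0 ^ 3 + X 1 ^ 3 + X 2 ^ 3 : MvPolynomial (Fin 3) K).IsHomogeneous 3 := by
    have hXp : ∀ (i : Fin 3) (n : ℕ), (X i ^ n : MvPolynomial (Fin 3) K).IsHomogeneous n :=
      fun i n => isHomogeneous_X_pow _ _
    exact ((hXp 0 3).add (hXp 1 3)).add (hXp 2 3)
  have hF0 : (X 0 ^ 3 + X 1 ^ 3 + X 2 ^ 3 : MvPolynomial (Fin 3) K) ≠ 0 := by
    intro h
    have := congrArg (eval ![1, 0, 0]) h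
    simp at this
  refine ⟨fun G hG => ⟨hsm2 G, hiso G hG⟩, ?_, ?_⟩
  · refine hiso _ hF 3 (by norm_num) hF0 ?_
    intro A hA
    rw [hcub]
    exact DA.p_ASM (DA.p_DEG DA.p_QUA DA.p_CUB DA.p_IND) (DA.p_PAR DA.p_SOL DA.p_NZV) DA.p_IRR
      K h3 w hw (a 0) (a 1) (a 2) A hA
  · rw [← hsm2, hcub]
    refine ⟨fun h hP => ?_, fun hP x hx => DA.p_SMO K h3 _ _ _ hP x hx⟩
    obtain ⟨x, hx, h1, h2⟩ := DA.p_SIN K h3 _ _ _ hP
    exact h x hx ⟨h1, h2⟩

end Pool.Agent.Results.MP_2f0ece_ag.ThreeIsogeny
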